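import Pool.Agent.Y402.PL.ANA2
import Pool.Agent.Y402.PL.Stm3

/-!
# Integration with an error term (helper454, job PL3-ANA3)
-/

set_option autoImplicit false

namespace Pool.Agent.Y454.PL

open MeasureTheory Set Filter Topology Pool.Agent.Y402.PL

/-- the increasing intervals -/
def sI (n : ℕ) : Set ℝ := Ioc (1 / ((n : ℝ) + 2)) ((n : ℝ) + 2)

theorem sI_union : (⋃ n, sI n) = Ioi (0 : ℝ) := by
  ext x
  simp only [mem_iUnion, mem_Ioi, sI, mem_Ioc]
  constructor
  · rintro ⟨n, h1, -⟩
    exact lt_trans (by positivity) h1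
  · intro hx
    obtain ⟨n, hn⟩ := exists_nat_ge (max x (1 / x))
    refine ⟨n, ?_, ?_⟩
    · have h1 : 1 / x ≤ n := le_trans (le_max_right _ _) hn
      rw [div_lt_iff₀ (by positivity)]
      rw [div_le_iff₀ hx] at h1
      nlinarith
    · have h1 : x ≤ n := le_trans (le_max_left _ _) hn
      linarith

theorem sI_mono : Monotone sI := by
  intro m n hmn x hx
  have h : (m : ℝ) ≤ n := by exact_mod_cast hmn
  refine ⟨lt_of_le_of_lt ?_ hx.1, le_trans hx.2 (by linarith)⟩
  exact one_div_le_one_div_of_le (by positivity) (by linarith)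

theorem mainANA3 : S_ANA3 := by
  intro p α β c hp hα hβ hc
  have hk0 : (0 : ℝ) < p / (p - 1) := by
    apply div_pos <;> linarith
  have hp0 : 0 < p := by linarith
  have hA : 0 < α / β := by positivity
  have hg := gfunR_integrable (α / β) hA p hp
  have hgI := gfunR_integral (α / β) hA p hp
  have h1 : c * (p / (p - 1)) < α * ∫ κ in Ioi (0 : ℝ), gfunR (α / β) p κ := by
    rw [hgI]
    have e : α * ((α / β) ^ (-(1 / p)) * Real.Gamma (1 + 1 / p) * (p / (p - 1))) =
        (Real.Gamma (1 + 1 / p) * (α ^ (1 - 1 / p) * β ^ (1 / p))) * (p / (p - 1)) := by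
      rw [← rpow_aux α β hα hβ]
      ring
    rw [e]
    exact mul_lt_mul_of_pos_right hc hk0
  have hlim : Tendsto (fun n => α * ∫ κ in sI n, gfunR (α / β) p κ) atTop
      (𝓝 (α * ∫ κ in Ioi (0 : ℝ), gfunR (α / β) p κ)) := by
    apply Tendsto.const_mul
    have h := tendsto_setIntegral_of_monotone (μ := volume) (s := sI)
      (f := gfunR (α / β) p) (fun n => measurableSet_Ioc) sI_mono (by rw [sI_union]; exact hg)
    rw [sI_union] at h
    exact h
  obtain ⟨n, hn⟩ := (hlim.eventually (lt_mem_nhds h1)).exists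
  set G : ℝ := ∫ κ in sI n, gfunR (α / β) p κ with hG
  have hδ : (0 : ℝ) < 1 / ((n : ℝ) + 2) := by positivity
  set B : ℝ := 1 + 1 / (α / β * (1 / ((n : ℝ) + 2)) ^ p) with hB
  have hB0 : 0 < B := by positivity
  have hR : 0 < ((n : ℝ) + 2) - 1 / ((n : ℝ) + 2) := by
    have h2 : 1 / ((n : ℝ) + 2) ≤ 1 := by
      rw [div_le_one (by positivity)]
      have : (0 : ℝ) ≤ n := Nat.cast_nonneg n
      linarith
    have : (0 : ℝ) ≤ n := Nat.cast_nonneg n
    linarith
  set M : ℝ := B * (((n : ℝ) + 2) - 1 / ((n : ℝ) + 2)) with hM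
  have hM0 : 0 < M := mul_pos hB0 hR
  refine ⟨(α * G - c * (p / (p - 1))) / (α * M), div_pos (by linarith) (by positivity), ?_⟩
  intro r a K V E hV hE hEV ha hK h
  obtain ⟨hi, hI⟩ := sum_integralR p r hp a K hK
  have hsub : sI n ⊆ Ioi (0 : ℝ) := by
    rw [← sI_union]; exact subset_iUnion sI n
  have hf0 : ∀ κ ∈ Ioi (0 : ℝ), 0 ≤ ∑ j ∈ Finset.range r, a j * min ((K j / κ) ^ p) 1 := by
    intro κ hκ
    apply Finset.sum_nonneg
    intro j hj
    have hj' := Finset.mem_range.mp hj
    apply mul_nonneg (ha j hj')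
    apply le_min _ zero_le_one
    exact Real.rpow_nonneg (div_nonneg (hK j hj') (le_of_lt hκ)) _
  have i1 : ∫ κ in sI n, ∑ j ∈ Finset.range r, a j * min ((K j / κ) ^ p) 1 ≤
      ∫ κ in Ioi (0 : ℝ), ∑ j ∈ Finset.range r, a j * min ((K j / κ) ^ p) 1 := by
    apply setIntegral_mono_set hi
    · exact (ae_restrict_iff' measurableSet_Ioi).mpr (Eventually.of_forall hf0)
    · exact hsub.eventuallyLE
  have hgn : IntegrableOn (gfunR (α / β) p) (sI n) := hg.mono_set hsub
  have hcn : IntegrableOn (fun _ : ℝ => α * E * B) (sI n) :=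
    integrableOn_const (by simp [sI])
  have i2 : ∫ κ in sI n, ((V * α) * gfunR (α / β) p κ - α * E * B) ≤
      ∫ κ in sI n, ∑ j ∈ Finset.range r, a j * min ((K j / κ) ^ p) 1 := by
    apply setIntegral_mono_on ((hgn.const_mul _).sub hcn) (hi.mono_set hsub) measurableSet_Ioc
    intro κ hκ
    have hκ0 : 0 < κ := hsub hκ
    have h2 := h κ (α * κ ^ p / β) hκ0 rfl
    have e2 : α * κ ^ p / β = α / β * κ ^ p := by ring
    rw [e2] at h2
    refine le_trans ?_ h2
    have h3 : 1 / (α / β * κ ^ p) ≤ 1 / (α / β * (1 / ((n : ℝ) + 2)) ^ p) := by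
      apply one_div_le_one_div_of_le (by positivity)
      apply mul_le_mul_of_nonneg_left _ hA.le
      exact Real.rpow_le_rpow hδ.le (le_of_lt hκ.1) hp0.le
    have h4 : α * E * (1 + 1 / (α / β * κ ^ p)) ≤ α * E * B := by
      apply mul_le_mul_of_nonneg_left _ (by positivity)
      rw [hB]; linarith
    have h9 : gfunR (α / β) p κ = (1 - Real.exp (-(α / β * κ ^ p))) / (α / β * κ ^ p) := rfl
    change V * α * gfunR (α / β) p κ - α * E * B ≤ _
    rw [h9]
    linarith
  have i3 : ∫ κ in sI n, ((V * α) * gfunR (α / β) p κ - α * E * B) =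
      V * α * G - α * E * M := by
    rw [integral_sub (hgn.const_mul _) hcn, integral_const_mul]
    have e3 : ∫ _ in sI n, α * E * B = α * E * M := by
      unfold sI
      simp only [integral_const, MeasurableSet.univ, measureReal_restrict_apply, univ_inter,
        Real.volume_real_Ioc, smul_eq_mul]
      rw [max_eq_left hR.le, hM]
      ring
    rw [e3]
  have h5 : α * E * M ≤ (α * G - c * (p / (p - 1))) * V := by
    have h6 : E * (α * M) ≤ (α * G - c * (p / (p - 1))) / (α * M) * V * (α * M) :=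
      mul_le_mul_of_nonneg_right hEV (by positivity)
    have h7 : (α * G - c * (p / (p - 1))) / (α * M) * V * (α * M) =
        (α * G - c * (p / (p - 1))) * V := by
      field_simp
    rw [h7] at h6
    linarith
  rw [i3] at i2
  rw [hI] at i1
  have h8 : c * V * (p / (p - 1)) ≤ (∑ j ∈ Finset.range r, K j * a j) * (p / (p - 1)) := by
    linarith
  exact le_of_mul_le_mul_right h8 hk0

end Pool.Agent.Y454.PL
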