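import Pool.Agent.Y402.PL.Stm2

/-!
Pluennecke's inequality with a target set from the pushing lemma (helper454, job PL2-MIN).
-/

set_option autoImplicit false

namespace Pool.Agent.Y454.PL

open Pointwise Pool.Agent.Y402.PL

theorem wt_fin (C : ℝ) (h : ℕ) (S : ℕ → Finset (ℕ × ℕ)) :
    wt C h S = ∑ i : Fin (h + 1), (C⁻¹) ^ (i : ℕ) * ((S i).card : ℝ) := by
  unfold wt
  rw [Finset.sum_range]

theorem term_le (C : ℝ) (hC : 0 < C) (h : ℕ) (S : ℕ → Finset (ℕ × ℕ)) (i : ℕ) (hi : i ≤ h) :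
    (C⁻¹) ^ i * ((S i).card : ℝ) ≤ wt C h S := by
  unfold wt
  exact Finset.single_le_sum (f := fun i => (C⁻¹) ^ i * ((S i).card : ℝ))
    (fun j _ => by positivity) (Finset.mem_range.2 (by omega))

theorem exists_min (h : ℕ) (A B Q : Finset (ℕ × ℕ)) (C : ℝ) (hC : 0 < C) :
    ∃ S : ℕ → Finset (ℕ × ℕ), Sep h A B Q S ∧
      ∀ S' : ℕ → Finset (ℕ × ℕ), Sep h A B Q S' → wt C h S ≤ wt C h S' := by
  classical
  obtain ⟨S₀, hS₀⟩ : ∃ S₀ : ℕ → Finset (ℕ × ℕ), S₀ = fun i => if i = 0 then A else ∅ := ⟨_, rfl⟩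
  have h0 : ∀ i, reach A B S₀ i = ∅ := by
    intro i
    induction i with
    | zero =>
      unfold reach
      rw [hS₀]
      simp
    | succ i ih =>
      unfold reach
      rw [ih]
      simp
  have hSep : Sep h A B Q S₀ := by
    unfold Pool.Agent.Y402.PL.Sep
    rw [h0]
    exact Finset.disjoint_empty_left _
  choose m hm using fun i : Fin (h + 1) => exists_nat_ge (wt C h S₀ * C ^ (i : ℕ))
  obtain ⟨T, hT⟩ : ∃ T : Set (Fin (h + 1) → ℕ), T = {n | ∃ S : ℕ → Finset (ℕ × ℕ),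
      Sep h A B Q S ∧ wt C h S ≤ wt C h S₀ ∧ ∀ i : Fin (h + 1), n i = (S i).card} := ⟨_, rfl⟩
  have hTf : T.Finite := by
    refine (Set.finite_Icc (0 : Fin (h + 1) → ℕ) (fun _ => ∑ j, m j)).subset ?_
    intro n hn
    rw [hT] at hn
    obtain ⟨S, _, hS2, hS3⟩ := hn
    refine ⟨fun i => Nat.zero_le _, fun i => ?_⟩
    have h1 := (term_le C hC h S i (by have := i.2; omega)).trans hS2
    have h2 : ((S i).card : ℝ) ≤ wt C h S₀ * C ^ (i : ℕ) := by
      have h3 := mul_le_mul_of_nonneg_right h1 (pow_pos hC (i : ℕ)).le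
      have h4 : (C⁻¹) ^ (i : ℕ) * ((S i).card : ℝ) * C ^ (i : ℕ) = ((S i).card : ℝ) := by
        rw [inv_pow]
        field_simp
      rw [h4] at h3
      exact h3
    have h5 : ((S i).card : ℝ) ≤ m i := h2.trans (hm i)
    have h6 : (S i).card ≤ m i := by exact_mod_cast h5
    rw [hS3 i]
    exact h6.trans (Finset.single_le_sum (f := m) (fun _ _ => Nat.zero_le _) (Finset.mem_univ i))
  have hTn : T.Nonempty := ⟨fun i => (S₀ i).card, by
    rw [hT]
    exact ⟨S₀, hSep, le_rfl, fun _ => rfl⟩⟩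
  obtain ⟨n, hn, hmin⟩ := Set.exists_min_image T
    (fun n => ∑ i : Fin (h + 1), (C⁻¹) ^ (i : ℕ) * (n i : ℝ)) hTf hTn
  rw [hT] at hn
  obtain ⟨S, hS1, hS2, hS3⟩ := hn
  refine ⟨S, hS1, fun S' hS' => ?_⟩
  rcases le_total (wt C h S') (wt C h S₀) with h1 | h1
  · have h2 := hmin (fun i => (S' i).card) (by
      rw [hT]
      exact ⟨S', hS', h1, fun _ => rfl⟩)
    rw [wt_fin, wt_fin]
    refine le_trans (le_of_eq ?_) h2
    refine Finset.sum_congr rfl fun i _ => ?_
    rw [hS3 i]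
  · exact hS2.trans h1

theorem exists_empty (hP : S_PUSH) (h : ℕ) (A B Q : Finset (ℕ × ℕ)) (C : ℝ) (hC : 0 < C) (e : ℕ) :
    ∃ S : ℕ → Finset (ℕ × ℕ), Sep h A B Q S ∧
      (∀ S' : ℕ → Finset (ℕ × ℕ), Sep h A B Q S' → wt C h S ≤ wt C h S') ∧
      ∀ j, 1 ≤ j → h - e ≤ j → j < h → S j = ∅ := by
  induction e with
  | zero =>
    obtain ⟨S, h1, h2⟩ := exists_min h A B Q C hC
    exact ⟨S, h1, h2, fun j _ hj hj2 => by omega⟩
  | succ e ih =>
    obtain ⟨S, h1, h2, h3⟩ := ih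
    rcases Nat.lt_or_ge (h - (e + 1)) 1 with hi | hi
    · exact ⟨S, h1, h2, fun j hj _ hj2 => h3 j hj (by omega) hj2⟩
    · obtain ⟨S', h4, h5, h6, h7⟩ := hP h A B Q C hC S h1 h2 (h - (e + 1)) hi (by omega)
      refine ⟨S', h4, fun S'' hS'' => by rw [h5]; exact h2 S'' hS'', fun j hj hj1 hj2 => ?_⟩
      rcases Nat.lt_or_ge (h - (e + 1)) j with hlt | hge
      · rw [h7 j hlt]
        exact h3 j hj (by omega) hj2
      · have : j = h - (e + 1) := by omega
        rw [this]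
        exact h6

/-- every separating family has weight at least `|A|` -/
theorem wt_ge (hP : S_PUSH) (h : ℕ) (hh : 1 ≤ h) (A B Q : Finset (ℕ × ℕ)) (C : ℝ) (hC : 0 < C)
    (hZ : ∀ Z ⊆ A, C ^ h * (Z.card : ℝ) ≤ (((Z + h • B) ∩ Q).card : ℝ))
    (S' : ℕ → Finset (ℕ × ℕ)) (hS' : Sep h A B Q S') : (A.card : ℝ) ≤ wt C h S' := by
  classical
  obtain ⟨S, h1, h2, h3⟩ := exists_empty hP h A B Q C hC h
  refine le_trans ?_ (h2 S' hS')
  have hr : ∀ j, j < h → reach A B S j = (A \ S 0) + j • B := by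
    intro j
    induction j with
    | zero =>
      intro _
      unfold reach
      rw [zero_nsmul, add_zero]
    | succ j ih =>
      intro hj
      unfold reach
      rw [ih (by omega), h3 (j + 1) (by omega) (by omega) hj, Finset.sdiff_empty, succ_nsmul,
        add_assoc]
  obtain ⟨h', rfl⟩ : ∃ h', h = h' + 1 := ⟨h - 1, by omega⟩
  have hrh : reach A B S (h' + 1) = ((A \ S 0) + (h' + 1) • B) \ S (h' + 1) := by
    unfold reach
    rw [hr h' (by omega), succ_nsmul, add_assoc]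
  unfold Pool.Agent.Y402.PL.Sep at h1
  rw [hrh] at h1
  have hsub : ((A \ S 0) + (h' + 1) • B) ∩ Q ⊆ S (h' + 1) := by
    intro y hy
    rw [Finset.mem_inter] at hy
    by_contra hc
    exact Finset.disjoint_left.1 h1 (Finset.mem_sdiff.2 ⟨hy.1, hc⟩) hy.2
  have h4 := hZ (A \ S 0) Finset.sdiff_subset
  have h5 : C ^ (h' + 1) * ((A \ S 0).card : ℝ) ≤ ((S (h' + 1)).card : ℝ) :=
    h4.trans (by exact_mod_cast Finset.card_le_card hsub)
  have h6 : ((A \ S 0).card : ℝ) ≤ (C⁻¹) ^ (h' + 1) * ((S (h' + 1)).card : ℝ) := by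
    have h7 := mul_le_mul_of_nonneg_left h5 (pow_pos (inv_pos.2 hC) (h' + 1)).le
    have h8 : (C⁻¹) ^ (h' + 1) * (C ^ (h' + 1) * ((A \ S 0).card : ℝ)) = ((A \ S 0).card : ℝ) := by
      rw [inv_pow]
      field_simp
    rw [h8] at h7
    exact h7
  have h9 : ((A.card : ℕ) : ℝ) ≤ ((S 0).card : ℝ) + ((A \ S 0).card : ℝ) := by
    have h10 : A.card ≤ (S 0).card + (A \ S 0).card := by
      have := Finset.card_sdiff_add_card_inter A (S 0)
      have h11 : (A ∩ S 0).card ≤ (S 0).card := Finset.card_le_card Finset.inter_subset_right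
      omega
    exact_mod_cast h10
  have h12 : ((S 0).card : ℝ) + (C⁻¹) ^ (h' + 1) * ((S (h' + 1)).card : ℝ) ≤
      wt C (h' + 1) S := by
    unfold wt
    rw [Finset.sum_range_succ, Finset.sum_range_succ']
    have h13 : 0 ≤ ∑ k ∈ Finset.range h', (C⁻¹) ^ (k + 1) * ((S (k + 1)).card : ℝ) :=
      Finset.sum_nonneg fun k _ => by positivity
    rw [pow_zero, one_mul]
    linarith
  linarith

theorem mainMIN : S_PUSH → S_PLU := by
  classical
  intro hP h A B Q C hC hZ i hi1 hih Z hZA F hF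
  obtain ⟨S, hS⟩ : ∃ S : ℕ → Finset (ℕ × ℕ), S = fun j => if j = 0 then A \ Z else
      if j = i then F else ∅ := ⟨_, rfl⟩
  have hS0 : S 0 = A \ Z := by rw [hS]; simp
  have hSi : S i = F := by
    rw [hS]
    simp only
    rw [if_neg (by omega)]
    simp
  have hSj : ∀ j, j ≠ 0 → j ≠ i → S j = ∅ := by
    intro j h1 h2
    rw [hS]
    simp only
    rw [if_neg h1, if_neg h2]
  have hr : ∀ j, reach A B S j ⊆ Z + j • B := by
    intro j
    induction j with
    | zero =>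
      unfold reach
      rw [zero_nsmul, add_zero, hS0]
      intro x hx
      rw [Finset.mem_sdiff, Finset.mem_sdiff] at hx
      by_contra hc
      exact hx.2 ⟨hx.1, hc⟩
    | succ j ih =>
      unfold reach
      rw [succ_nsmul, ← add_assoc]
      exact Finset.sdiff_subset.trans (Finset.add_subset_add_right ih)
  have hr2 : ∀ s, reach A B S (i + s) ⊆ reach A B S i + s • B := by
    intro s
    induction s with
    | zero => rw [zero_nsmul, add_zero, add_zero]
    | succ s ih =>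
      have e : i + (s + 1) = (i + s) + 1 := by omega
      rw [e, succ_nsmul, ← add_assoc]
      change (reach A B S (i + s) + B) \ S (i + s + 1) ⊆ _
      exact Finset.sdiff_subset.trans (Finset.add_subset_add_right ih)
  have hSep : Sep h A B Q S := by
    unfold Pool.Agent.Y402.PL.Sep
    rw [Finset.disjoint_left]
    intro y hy hyQ
    have h1 := hr2 (h - i)
    rw [show i + (h - i) = h by omega] at h1
    obtain ⟨x, hx, c, hc, hxc⟩ := Finset.mem_add.1 (h1 hy)
    have hxF : x ∈ F := hF x (hr i hx) ⟨c, hc, by rw [hxc]; exact hyQ⟩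
    obtain ⟨i', hi'⟩ : ∃ i', i = i' + 1 := ⟨i - 1, by omega⟩
    have h2 : x ∉ S i := by
      rw [hi'] at hx ⊢
      exact (Finset.mem_sdiff.1 hx).2
    rw [hSi] at h2
    exact h2 hxF
  have h1 := wt_ge hP h (by omega) A B Q C hC hZ S hSep
  have h2 : wt C h S = ((A \ Z).card : ℝ) + (C⁻¹) ^ i * (F.card : ℝ) := by
    unfold wt
    rw [← Finset.add_sum_erase _ _ (Finset.mem_range.2 (show 0 < h + 1 by omega)),
      ← Finset.add_sum_erase _ _ (Finset.mem_erase.2 ⟨(by omega : i ≠ 0),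
        Finset.mem_range.2 (show i < h + 1 by omega)⟩), hS0, hSi]
    have h3 : ∑ x ∈ ((Finset.range (h + 1)).erase 0).erase i,
        (C⁻¹) ^ x * ((S x).card : ℝ) = 0 := by
      refine Finset.sum_eq_zero fun x hx => ?_
      rw [Finset.mem_erase, Finset.mem_erase] at hx
      rw [hSj x hx.2.1 hx.1, Finset.card_empty, Nat.cast_zero, mul_zero]
    rw [h3, pow_zero, one_mul, add_zero]
  have h4 : ((A \ Z).card : ℝ) = (A.card : ℝ) - (Z.card : ℝ) := by
    have h5 := Finset.card_sdiff_add_card_eq_card hZA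
    have h6 : (((A \ Z).card + Z.card : ℕ) : ℝ) = (A.card : ℝ) := by rw [h5]
    push_cast at h6
    linarith
  have h7 : (Z.card : ℝ) ≤ (C⁻¹) ^ i * (F.card : ℝ) := by
    rw [h2, h4] at h1
    linarith
  have h8 := mul_le_mul_of_nonneg_left h7 (pow_pos hC i).le
  refine h8.trans (le_of_eq ?_)
  rw [inv_pow]
  field_simp

end Pool.Agent.Y454.PL
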